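import Pool.Agent.R33.Decay

/-!
# MP_efdca5_co: the decay number is at most `2 χ(Gᶜ) - λ + 1`

The proof counts, for `A ⊆ E(G)`, the incidences between the components of `G - A` and the classes of
an optimal partition of the vertices of `G` into cliques.
-/

set_option autoImplicit false

namespace Pool.Agent.Results.MP_efdca5_co.DecayBound

open Pool.Agent.R33.Decay

/-- `y_G(A) = 2 c(G - A) - |A| - 1`, where `c` is the number of connected components. -/
noncomputable def yOf {V : Type} (G : SimpleGraph V) (A : Set (Sym2 V)) : ℤ :=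
  2 * (Nat.card (G.deleteEdges A).ConnectedComponent : ℤ) - (A.ncard : ℤ) - 1

/-- `y_G`, the largest of the numbers `y_G(A)` for `A ⊆ E(G)`. -/
noncomputable def y {V : Type} (G : SimpleGraph V) : ℤ :=
  sSup {z : ℤ | ∃ A : Set (Sym2 V), A ⊆ G.edgeSet ∧ z = yOf G A}

theorem y_isGreatest {V : Type} [Fintype V] (G : SimpleGraph V) :
    IsGreatest {z : ℤ | ∃ A : Set (Sym2 V), A ⊆ G.edgeSet ∧ z = yOf G A} (y G) := by
  have hfin : {z : ℤ | ∃ A : Set (Sym2 V), A ⊆ G.edgeSet ∧ z = yOf G A}.Finite := by
    refine (Set.finite_range (yOf G)).subset ?_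
    rintro z ⟨A, -, rfl⟩
    exact ⟨A, rfl⟩
  have hne : {z : ℤ | ∃ A : Set (Sym2 V), A ⊆ G.edgeSet ∧ z = yOf G A}.Nonempty :=
    ⟨_, ∅, Set.empty_subset _, rfl⟩
  exact ⟨Int.csSup_mem hne hfin.bddAbove, fun z hz => le_csSup hfin.bddAbove hz⟩

theorem bound {V : Type} [Fintype V] (G : SimpleGraph V) (hG : G.Connected) (lam : ℕ)
    (hlam : lam = 1 ∨ lam = 2) (hk : KEdgeConnected G lam)
    (hC3 : ¬ Nonempty (G ≃g SimpleGraph.cycleGraph 3)) (A : Set (Sym2 V)) :
    yOf G A ≤ 2 * (Gᶜ.chromaticNumber.toNat : ℤ) - lam + 1 := by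
  classical
  obtain ⟨c0⟩ := SimpleGraph.colorable_chromaticNumber (Gᶜ.colorable_of_fintype)
  set θ := Gᶜ.chromaticNumber.toNat with hθ
  let c : V → Fin θ := c0
  have hc : ∀ u v, c u = c v → u ≠ v → G.Adj u v := by
    intro u v h huv
    by_contra hn
    exact c0.valid (show Gᶜ.Adj u v from ⟨huv, hn⟩) h
  have a1 := key_a c (G := G) (A := A)
  have c1 := card_K_le c (G := G) (A := A)
  have c2 := card_used_le c
  have b1 := key_b c hG (A := A)
  have ab := card_add_le c (G := G) (A := A)
  have d1 := key_d c (A := A) hc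
  have hC : Nat.card (G.deleteEdges A).ConnectedComponent = Fintype.card (Comp G A) :=
    Nat.card_eq_fintype_card
  obtain ⟨v0⟩ := hG.nonempty
  have hθ1 : 1 ≤ θ := Nat.one_le_iff_ne_zero.2 fun h => by
    have := (c v0).2
    omega
  unfold yOf
  rw [hC]
  rcases hlam with rfl | rfl
  · push_cast
    omega
  · by_cases hK : 2 ≤ Fintype.card (K c G A)
    · have b2 := key_b2 c hk hK
      push_cast
      omega
    · by_cases hθ2 : 2 ≤ θ
      · push_cast
        omega
      · -- the complete graph
        have hθ' : θ = 1 := by omega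
        have hall : ∀ u v : V, u ≠ v → G.Adj u v := by
          intro u v huv
          refine hc u v ?_ huv
          apply Fin.ext
          have h1 := (c u).2
          have h2 := (c v).2
          omega
        have h1 := complete_case (G := G) (A := A) hall
        have h2 : Fintype.card (Comp G A) ≤ Fintype.card V :=
          Fintype.card_le_of_surjective (π G A) fun x => by
            obtain ⟨v, hv⟩ := x.exists_rep
            exact ⟨v, hv⟩
        have htop : G = ⊤ := by
          ext u v
          rw [SimpleGraph.top_adj]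
          exact ⟨fun h => h.ne, hall u v⟩
        have h3 : Fintype.card V ≠ 3 := by
          intro h
          apply hC3
          rw [SimpleGraph.cycleGraph_three_eq_top, htop]
          exact ⟨SimpleGraph.Iso.completeGraph (Fintype.equivFinOfCardEq h)⟩
        have h4 : Fintype.card V ≠ 2 := by
          intro h
          obtain ⟨u, v, huv, huniv⟩ := Finset.card_eq_two.1 (Finset.card_univ.trans h)
          obtain ⟨P, -, hP⟩ := hk u v huv
          have hb : ∀ i : Fin 2, s(u, v) ∈ (P i).edges := by
            intro i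
            obtain ⟨d, hd, hd1, hd2⟩ := (P i).exists_boundary_dart {u} rfl
              (fun h => huv (Set.mem_singleton_iff.1 h).symm)
            have e1 : d.fst = u := hd1
            have e2 : d.snd = v := by
              have := Finset.mem_univ d.snd
              rw [huniv, Finset.mem_insert, Finset.mem_singleton] at this
              exact this.resolve_left fun h => hd2 h
            have e3 : d.edge = s(u, v) := by
              rw [← e1, ← e2]; rfl
            rw [← e3]
            exact List.mem_map_of_mem (f := SimpleGraph.Dart.edge) hd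
          exact hP 0 1 (by decide) _ (hb 0) (hb 1)
        have h5 : 1 ≤ Fintype.card V := Fintype.card_pos_iff.2 ⟨v0⟩
        set C := Fintype.card (Comp G A)
        set n := Fintype.card V
        rw [hθ']
        push_cast
        rcases Nat.lt_or_ge n 4 with hn | hn
        · have : n = 1 := by omega
          omega
        · have h6 : 4 * (C - 1) ≤ 2 * A.ncard :=
            (Nat.mul_le_mul_right (C - 1) hn).trans h1
          omega

/-- For every connected graph `G` (planar or not) that is `λ`-edge-connected, `λ ∈ {1, 2}`, and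
not isomorphic to `C₃`: the maximum `y_G` of `2 c(G - A) - |A| - 1` over `A ⊆ E(G)` satisfies
`y_G ≤ 2 χ(Gᶜ) - λ + 1`. -/
theorem result (V : Type) [Fintype V] (G : SimpleGraph V) (hG : G.Connected) (lam : ℕ)
    (hlam : lam = 1 ∨ lam = 2) (hk : KEdgeConnected G lam)
    (hC3 : ¬ Nonempty (G ≃g SimpleGraph.cycleGraph 3)) :
    IsGreatest {z : ℤ | ∃ A : Set (Sym2 V), A ⊆ G.edgeSet ∧ z = yOf G A} (y G) ∧
    y G ≤ 2 * (Gᶜ.chromaticNumber.toNat : ℤ) - lam + 1 := by
  refine ⟨y_isGreatest G, ?_⟩
  obtain ⟨A, -, hA⟩ := (y_isGreatest G).1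
  rw [hA]
  exact bound G hG lam hlam hk hC3 A

end Pool.Agent.Results.MP_efdca5_co.DecayBound
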